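import Pool.Agent.H655.BK.Cell
import Pool.Agent.H655.EK.Grid

/-!
The grid induction, and the relative straightening theorem in coordinate space, for maps which
preserve a half-space.
-/

open Set Filter Topology Metric

namespace Pool.Agent.H655.BK

open Pool.Agent.H655.EK

variable {ι : Type*} [Fintype ι] [DecidableEq ι]

theorem gc_far {s : ℝ} (hs : 0 < s) (A : Finset ι) (m : ι → ℤ) (n : ι) (h : n ∉ A) :
    s / 2 ≤ |gc s A m n| := by
  rw [gc, if_neg h, abs_mul, abs_of_pos hs]
  have h1 : (1 / 2 : ℝ) ≤ |(m n : ℝ) + 1 / 2| := by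
    rcases le_or_gt 0 (m n) with h2 | h2
    · have h3 : (0 : ℝ) ≤ m n := by exact_mod_cast h2
      rw [abs_of_nonneg (by linarith)]
      linarith
    · have h3 : m n ≤ -1 := by omega
      have h4 : (m n : ℝ) ≤ -1 := by exact_mod_cast h3
      rw [abs_of_neg (by linarith)]
      linarith
  nlinarith

/-- Straightening over a finite family of faces. -/
theorem grid_straightS (n : ι) {s : ℝ} (hs : 0 < s) {U C₀ : Set (ι → ℝ)} (hU : IsOpen U)
    (hC₀ : IsClosed C₀) (F : Finset (Finset ι × (ι → ℤ))) (hFU : ∀ f ∈ F, face s f.1 f.2 ⊆ U)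
    (hsub : ∀ f ∈ F, ∀ j, j ∉ f.1 → (insert j f.1, f.2) ∈ F ∧
      (insert j f.1, Function.update f.2 j (f.2 j + 1)) ∈ F)
    (hint : ∀ f ∈ F, face s f.1 f.2 ⊆ C₀ ∨ Disjoint (fint s f.1 f.2) C₀) :
    StraightS (fun w => SignType.sign (w n)) U C₀ (C₀ ∪ ⋃ f ∈ F, face s f.1 f.2) := by
  have claim : ∀ k : ℕ, ∀ T : Finset (Finset ι × (ι → ℤ)), T.card = k → T ⊆ F →
      (∀ f ∈ T, ∀ f' ∈ F, f.1.card < f'.1.card → f' ∈ T) →
      StraightS (fun w => SignType.sign (w n)) U C₀ (C₀ ∪ ⋃ f ∈ T, face s f.1 f.2) := by
    intro k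
    induction k with
    | zero =>
      intro T hT _ _
      rw [Finset.card_eq_zero] at hT
      subst hT
      exact (straight_reflS U C₀).mono (by simp)
    | succ k ih =>
      intro T hT hTF hup
      have hne : T.Nonempty := by
        rw [← Finset.card_pos]
        omega
      obtain ⟨f, hfT, hmin⟩ := Finset.exists_min_image T (fun f => f.1.card) hne
      have hfF := hTF hfT
      have hT' : (T.erase f).card = k := by
        rw [Finset.card_erase_of_mem hfT]
        omega
      have hup' : ∀ g ∈ T.erase f, ∀ f' ∈ F, g.1.card < f'.1.card → f' ∈ T.erase f := by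
        intro g hg f' hf' hlt
        have hgT := Finset.mem_of_mem_erase hg
        refine Finset.mem_erase.2 ⟨?_, hup g hgT f' hf' hlt⟩
        rintro rfl
        exact absurd (hmin g hgT) (not_le.2 hlt)
      have h1 := ih (T.erase f) hT' ((Finset.erase_subset _ _).trans hTF) hup'
      set D := C₀ ∪ ⋃ g ∈ T.erase f, face s g.1 g.2 with hD
      have hDc : IsClosed D :=
        hC₀.union (isClosed_biUnion_finset fun g _ => face_closed s g.1 g.2)
      have hfin : (C₀ ∪ ⋃ g ∈ T, face s g.1 g.2) ⊆ D ∪ face s f.1 f.2 := by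
        rintro w (hw | hw)
        · exact Or.inl (Or.inl hw)
        · simp only [mem_iUnion] at hw
          obtain ⟨g, hg, hw⟩ := hw
          by_cases hgf : g = f
          · subst hgf
            exact Or.inr hw
          · refine Or.inl (Or.inr ?_)
            simp only [mem_iUnion]
            exact ⟨g, Finset.mem_erase.2 ⟨hgf, hg⟩, hw⟩
      have h2 : StraightS (fun w => SignType.sign (w n)) U D (D ∪ face s f.1 f.2) := by
        rcases hint f hfF with h | h
        · exact (straight_reflS U D).mono (union_subset Subset.rfl (h.trans subset_union_left))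
        · refine straight_cellS n hU hDc f.1 (gc s f.1 f.2) (by linarith) (gc_far hs _ _ n)
            (hFU f hfF) ?_ ?_
          · rintro w hw ⟨i, hi, hwi⟩
            have hw' : w ∈ face s f.1 f.2 := hw
            rw [mem_face] at hw'
            have h3 := hsub f hfF i hi
            have hcard : f.1.card < (insert i f.1).card := by
              rw [Finset.card_insert_of_notMem hi]
              exact Nat.lt_succ_self _
            have hmem : ∀ m', (insert i f.1, m') ∈ F → w ∈ face s (insert i f.1) m' → w ∈ D := by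
              intro m' hm' hwm
              refine Or.inr ?_
              simp only [mem_iUnion]
              refine ⟨(insert i f.1, m'), Finset.mem_erase.2 ⟨?_, ?_⟩, hwm⟩
              · intro he
                have := congrArg (fun g => g.1.card) he
                simp only at this
                omega
              · exact hup f hfT _ hm' hcard
            rw [gc, if_neg hi] at hwi
            rcases (abs_eq (by linarith)).1 hwi with h4 | h4
            · refine hmem _ h3.2 (mem_face.2 ⟨?_, ?_⟩)
              · intro j hj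
                rcases Finset.mem_insert.1 hj with rfl | hj'
                · rw [Function.update_self]
                  push_cast
                  linarith
                · have hji : j ≠ i := fun hji => hi (hji ▸ hj')
                  rw [Function.update_of_ne hji]
                  exact hw'.1 j hj'
              · intro j hj
                rw [Finset.mem_insert, not_or] at hj
                rw [Function.update_of_ne hj.1]
                exact hw'.2 j hj.2
            · refine hmem _ h3.1 (mem_face.2 ⟨?_, ?_⟩)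
              · intro j hj
                rcases Finset.mem_insert.1 hj with rfl | hj
                · linarith
                · exact hw'.1 j hj
              · intro j hj
                rw [Finset.mem_insert, not_or] at hj
                exact hw'.2 j hj.2
          · intro w hw1 hw2 hwD
            have hwint : w ∈ fint s f.1 f.2 := by
              refine ⟨fun i hi => ?_, fun i hi => ?_⟩
              · rw [hw1 i hi, gc, if_pos hi]
              · have := hw2 i hi
                rw [gc, if_neg hi, abs_lt] at this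
                constructor <;> linarith [this.1, this.2]
            rcases hwD with hwD | hwD
            · exact Set.disjoint_left.1 h hwint hwD
            · simp only [mem_iUnion] at hwD
              obtain ⟨g, hg, hwg⟩ := hwD
              have hg' := Finset.mem_erase.1 hg
              obtain ⟨h5, h6, h7⟩ := face_inter hs hwint hwg
              have h8 : g.1 = f.1 := Finset.eq_of_subset_of_card_le h5 (hmin g hg'.2)
              apply hg'.1
              refine Prod.ext h8 ?_
              funext i
              by_cases hi : i ∈ f.1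
              · exact (h7 i (h8 ▸ hi)).symm
              · exact (h6 i hi).symm
      exact (h1.trans h2 subset_union_left).mono hfin
  exact claim F.card F rfl Finset.Subset.rfl fun f _ f' hf' _ => hf'

/-- The relative straightening theorem in coordinate space. -/
theorem ek_piS (n : ι) {U K C N : Set (ι → ℝ)} (hU : IsOpen U) (hK : IsCompact K) (hKU : K ⊆ U)
    (hC : IsClosed C) (hN : IsOpen N) (hCN : C ⊆ N) :
    ∃ N', IsOpen N' ∧ K ⊆ N' ∧ ∃ K', IsCompact K' ∧ K' ⊆ U ∧ ∃ N₁, IsOpen N₁ ∧ C ⊆ N₁ ∧
      ∀ ε > 0, ∃ δ > 0, ∀ g : (ι → ℝ) → (ι → ℝ), OE g U → (∀ w ∈ U, ‖g w - w‖ ≤ δ) →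
        (∀ w ∈ U ∩ N, g w = w) → (∀ w ∈ U, SignType.sign (g w n) = SignType.sign (w n)) →
        ∃ h : (ι → ℝ) ≃ₜ (ι → ℝ), (∀ w, SignType.sign (h w n) = SignType.sign (w n)) ∧
          (∀ w, w ∉ K' → h w = w) ∧
          (∀ w ∈ N₁, h w = w) ∧ (∀ w, ‖h w - w‖ ≤ ε) ∧ ∀ w ∈ U ∩ N', g w = h w := by
  classical
  obtain ⟨η₁, hη₁, hth₁⟩ := hK.exists_cthickening_subset_open hU hKU
  have hCK : IsCompact (C ∩ cthickening 1 K) := hK.cthickening.inter_left hC
  obtain ⟨η₂, hη₂, hth₂⟩ := hCK.exists_cthickening_subset_open hN
    (inter_subset_left.trans hCN)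
  set s := min (min η₁ η₂) 1 with hsdef
  have hs : 0 < s := lt_min (lt_min hη₁ hη₂) one_pos
  have hs1 : s ≤ η₁ := (min_le_left _ _).trans (min_le_left _ _)
  have hs2 : s ≤ η₂ := (min_le_left _ _).trans (min_le_right _ _)
  have hs3 : s ≤ 1 := min_le_right _ _
  set M : Set (ι → ℤ) := {q | (face s ∅ q ∩ K).Nonempty} with hM
  have hMfin : M.Finite := by
    obtain ⟨R, hR⟩ := hK.isBounded.subset_closedBall (0 : ι → ℝ)
    refine (Set.finite_Icc (fun _ : ι => ⌊-R / s - 1⌋) (fun _ : ι => ⌈R / s⌉)).subset ?_
    rintro q ⟨y, hy, hyK⟩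
    rw [mem_face] at hy
    have h1 := hR hyK
    rw [mem_closedBall_zero_iff] at h1
    have h2 : ∀ i, |y i| ≤ R := by
      intro i
      have := norm_le_pi_norm y i
      rw [Real.norm_eq_abs] at this
      linarith
    constructor
    · intro i
      have h3 := (hy.2 i (Finset.notMem_empty i)).2
      have h4 := (abs_le.1 (h2 i)).1
      have h5 : -R / s - 1 ≤ q i := by
        have : -R / s ≤ (q i : ℝ) + 1 := by
          rw [div_le_iff₀ hs]
          linarith
        linarith
      have h6 : ((⌊-R / s - 1⌋ : ℤ) : ℝ) ≤ q i := (Int.floor_le _).trans h5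
      exact_mod_cast h6
    · intro i
      have h3 := (hy.2 i (Finset.notMem_empty i)).1
      have h4 := (abs_le.1 (h2 i)).2
      have h5 : (q i : ℝ) ≤ R / s := by
        rw [le_div_iff₀ hs]
        linarith
      have h6 : (q i : ℝ) ≤ ((⌈R / s⌉ : ℤ) : ℝ) := h5.trans (Int.le_ceil _)
      exact_mod_cast h6
  set F₀ : Set (Finset ι × (ι → ℤ)) := {f | ∃ q ∈ M, ∀ i, (i ∉ f.1 → f.2 i = q i) ∧
    (i ∈ f.1 → f.2 i = q i ∨ f.2 i = q i + 1)} with hF₀
  have hF₀fin : F₀.Finite := by
    have h1 : (⋃ q ∈ M, Icc q (q + 1)).Finite := hMfin.biUnion fun q _ => Set.finite_Icc _ _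
    refine ((Set.finite_univ : (univ : Set (Finset ι)).Finite).prod h1).subset ?_
    rintro ⟨A, m⟩ ⟨q, hq, h⟩
    refine ⟨mem_univ _, ?_⟩
    simp only [mem_iUnion]
    refine ⟨q, hq, ?_, ?_⟩
    · intro i
      have h2 := h i
      simp only at h2
      show q i ≤ m i
      by_cases hi : i ∈ A
      · rcases h2.2 hi with h3 | h3 <;> omega
      · exact (h2.1 hi).ge
    · intro i
      have h2 := h i
      simp only at h2
      show m i ≤ q i + 1
      by_cases hi : i ∈ A
      · rcases h2.2 hi with h3 | h3 <;> omega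
      · have := h2.1 hi
        omega
  have hsubq : ∀ f : Finset ι × (ι → ℤ), ∀ q, (∀ i, (i ∉ f.1 → f.2 i = q i) ∧
      (i ∈ f.1 → f.2 i = q i ∨ f.2 i = q i + 1)) → face s f.1 f.2 ⊆ face s ∅ q := by
    rintro ⟨A, m⟩ q h y hy
    simp only at h hy
    rw [mem_face] at hy ⊢
    refine ⟨fun i hi => absurd hi (Finset.notMem_empty i), fun i _ => ?_⟩
    by_cases hi : i ∈ A
    · rw [hy.1 i hi]
      rcases (h i).2 hi with h3 | h3
      · rw [h3]
        constructor
        · exact le_rfl
        · nlinarith
      · rw [h3]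
        push_cast
        constructor
        · nlinarith
        · exact le_rfl
    · rw [← (h i).1 hi]
      exact hy.2 i hi
  set M₁ : Set (ι → ℤ) := {q | q ∈ M ∧ (face s ∅ q ∩ C).Nonempty} with hM₁
  have hM₁fin : M₁.Finite := hMfin.subset fun q hq => hq.1
  set C₀ : Set (ι → ℝ) := C ∪ ⋃ q ∈ M₁, face s ∅ q with hC₀
  have hC₀c : IsClosed C₀ := hC.union (hM₁fin.isClosed_biUnion fun q _ => face_closed s ∅ q)
  have hC₀N : C₀ ⊆ N := by
    refine union_subset hCN (iUnion₂_subset ?_)
    rintro q ⟨⟨y, hy, hyK⟩, x, hx, hxC⟩ w hw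
    apply hth₂
    refine mem_cthickening_of_dist_le w x _ _ ⟨hxC, ?_⟩ ((face_dist hs hw hx).trans hs2)
    exact mem_cthickening_of_dist_le x y _ _ hyK ((face_dist hs hx hy).trans hs3)
  have hstr := grid_straightS n hs hU hC₀c hF₀fin.toFinset ?_ ?_ ?_
  · obtain ⟨N', hN', hDN', K', hK', hK'U, N₁, hN₁, hCN₁, H⟩ := hstr N hN hC₀N
    refine ⟨N', hN', ?_, K', hK', hK'U, N₁, hN₁, subset_union_left.trans hCN₁, H⟩
    intro y hy
    apply hDN'
    refine Or.inr ?_
    simp only [mem_iUnion]
    have hyq : y ∈ face s ∅ fun i => ⌊y i / s⌋ := by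
      rw [mem_face]
      refine ⟨fun i hi => absurd hi (Finset.notMem_empty i), fun i _ => ?_⟩
      have h1 := Int.floor_le (y i / s)
      have h2 := (Int.lt_floor_add_one (y i / s)).le
      rw [le_div_iff₀ hs] at h1
      rw [div_le_iff₀ hs] at h2
      constructor <;> linarith
    refine ⟨(∅, fun i => ⌊y i / s⌋), ?_, hyq⟩
    rw [Set.Finite.mem_toFinset]
    exact ⟨fun i => ⌊y i / s⌋, ⟨y, hyq, hy⟩, fun i => ⟨fun _ => rfl, fun h =>
      absurd h (Finset.notMem_empty i)⟩⟩
  · intro f hf
    rw [Set.Finite.mem_toFinset] at hf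
    obtain ⟨q, ⟨y, hy, hyK⟩, hq⟩ := hf
    refine (hsubq f q hq).trans fun w hw => hth₁ ?_
    exact mem_cthickening_of_dist_le w y _ _ hyK ((face_dist hs hw hy).trans hs1)
  · rintro ⟨A, m⟩ hf j hj
    rw [Set.Finite.mem_toFinset] at hf
    obtain ⟨q, hq, h⟩ := hf
    simp only at h hj ⊢
    rw [Set.Finite.mem_toFinset, Set.Finite.mem_toFinset]
    constructor
    · refine ⟨q, hq, fun i => ⟨fun hi => ?_, fun hi => ?_⟩⟩
      · simp only [Finset.mem_insert, not_or] at hi
        exact (h i).1 hi.2
      · simp only [Finset.mem_insert] at hi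
        rcases hi with rfl | hi
        · exact Or.inl ((h i).1 hj)
        · exact (h i).2 hi
    · refine ⟨q, hq, fun i => ⟨fun hi => ?_, fun hi => ?_⟩⟩
      · simp only [Finset.mem_insert, not_or] at hi
        simp only [Function.update_of_ne hi.1]
        exact (h i).1 hi.2
      · simp only [Finset.mem_insert] at hi
        rcases hi with rfl | hi
        · right
          simp only [Function.update_self]
          rw [(h i).1 hj]
        · have hij : i ≠ j := by
            rintro rfl
            exact hj hi
          simp only [Function.update_of_ne hij]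
          exact (h i).2 hi
  · intro f hf
    rw [Set.Finite.mem_toFinset] at hf
    obtain ⟨q, hqM, hq⟩ := hf
    by_cases hdis : Disjoint (fint s f.1 f.2) C₀
    · exact Or.inr hdis
    · left
      rw [Set.not_disjoint_iff] at hdis
      obtain ⟨w, hw, hwC⟩ := hdis
      rcases hwC with hwC | hwC
      · refine (hsubq f q hq).trans ?_
        intro z hz
        refine Or.inr ?_
        simp only [mem_iUnion]
        exact ⟨q, ⟨hqM, w, hsubq f q hq (fint_sub _ _ _ hw), hwC⟩, hz⟩
      · simp only [mem_iUnion] at hwC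
        obtain ⟨q', hq', hwq'⟩ := hwC
        intro z hz
        refine Or.inr ?_
        simp only [mem_iUnion]
        exact ⟨q', hq', face_inter_cube hs hw hwq' hz⟩

end Pool.Agent.H655.BK
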