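import Pool.Agent.H655.BK.Inv

/-!
The relative straightening theorem in the half-space.
-/

open Set Filter Topology Metric

namespace Pool.Agent.H655.BK

open Pool.Agent.H655.EK

variable {n : ℕ} [NeZero n]

/-- The relative straightening theorem for maps which preserve the sign of a coordinate. -/
theorem ekS {U K C N : Set (EuclideanSpace ℝ (Fin n))} (hU : IsOpen U) (hK : IsCompact K)
    (hKU : K ⊆ U) (hC : IsClosed C) (hN : IsOpen N) (hCN : C ⊆ N) :
    ∃ N', IsOpen N' ∧ K ⊆ N' ∧ ∃ K', IsCompact K' ∧ K' ⊆ U ∧ ∃ N₁, IsOpen N₁ ∧ C ⊆ N₁ ∧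
      ∀ ε > 0, ∃ δ > 0, ∀ g : EuclideanSpace ℝ (Fin n) → EuclideanSpace ℝ (Fin n), OE g U →
        (∀ w ∈ U, ‖g w - w‖ ≤ δ) → (∀ w ∈ U ∩ N, g w = w) →
        (∀ w ∈ U, SignType.sign (g w 0) = SignType.sign (w 0)) →
        ∃ h : EuclideanSpace ℝ (Fin n) ≃ₜ EuclideanSpace ℝ (Fin n),
          (∀ w, SignType.sign (h w 0) = SignType.sign (w 0)) ∧ (∀ w, w ∉ K' → h w = w) ∧
          (∀ w ∈ N₁, h w = w) ∧ (∀ w, ‖h w - w‖ ≤ ε) ∧ ∀ w ∈ U ∩ N', g w = h w := by
  set L : EuclideanSpace ℝ (Fin n) ≃L[ℝ] (Fin n → ℝ) := EuclideanSpace.equiv (Fin n) ℝ with hL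
  set Φ := L.toHomeomorph with hΦ
  have hΦa : ∀ x, Φ x = L x := fun _ => rfl
  have hΦs : ∀ x, Φ.symm x = L.symm x := fun _ => rfl
  have hΦi : ∀ (x : EuclideanSpace ℝ (Fin n)) (i : Fin n), Φ x i = x i := fun _ _ => rfl
  have hΦsi : ∀ (x : Fin n → ℝ) (i : Fin n), Φ.symm x i = x i := fun _ _ => rfl
  set A := ‖(L : EuclideanSpace ℝ (Fin n) →L[ℝ] (Fin n → ℝ))‖ + 1 with hA
  set B := ‖(L.symm : (Fin n → ℝ) →L[ℝ] EuclideanSpace ℝ (Fin n))‖ + 1 with hB
  have hA0 : 0 < A := by positivity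
  have hB0 : 0 < B := by positivity
  have hLA : ∀ x y, ‖Φ x - Φ y‖ ≤ A * ‖x - y‖ := by
    intro x y
    rw [hΦa, hΦa, ← map_sub]
    have h1 := (L : EuclideanSpace ℝ (Fin n) →L[ℝ] (Fin n → ℝ)).le_opNorm (x - y)
    have h2 : ‖L (x - y)‖ ≤ ‖(L : EuclideanSpace ℝ (Fin n) →L[ℝ] (Fin n → ℝ))‖ * ‖x - y‖ := h1
    refine h2.trans ?_
    rw [hA, add_mul]
    linarith [norm_nonneg (x - y)]
  have hLB : ∀ x y, ‖Φ.symm x - Φ.symm y‖ ≤ B * ‖x - y‖ := by
    intro x y
    rw [hΦs, hΦs, ← map_sub]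
    have h1 := (L.symm : (Fin n → ℝ) →L[ℝ] EuclideanSpace ℝ (Fin n)).le_opNorm (x - y)
    have h2 : ‖L.symm (x - y)‖ ≤
        ‖(L.symm : (Fin n → ℝ) →L[ℝ] EuclideanSpace ℝ (Fin n))‖ * ‖x - y‖ := h1
    refine h2.trans ?_
    rw [hB, add_mul]
    linarith [norm_nonneg (x - y)]
  have hmem : ∀ (S : Set (EuclideanSpace ℝ (Fin n))) (y), y ∈ Φ.symm ⁻¹' S ↔ Φ.symm y ∈ S :=
    fun _ _ => Iff.rfl
  obtain ⟨N', hN', hKN', K', hK', hK'U, N₁, hN₁, hCN₁, H⟩ := ek_piS 0 (U := Φ.symm ⁻¹' U)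
    (K := Φ '' K) (C := Φ.symm ⁻¹' C) (N := Φ.symm ⁻¹' N) (hU.preimage Φ.symm.continuous)
    (hK.image Φ.continuous) (by
      rintro _ ⟨x, hx, rfl⟩
      rw [hmem, Φ.symm_apply_apply]
      exact hKU hx)
    (hC.preimage Φ.symm.continuous) (hN.preimage Φ.symm.continuous) (preimage_mono hCN)
  refine ⟨Φ ⁻¹' N', hN'.preimage Φ.continuous, fun x hx => hKN' (mem_image_of_mem _ hx),
    Φ.symm '' K', hK'.image Φ.symm.continuous, ?_, Φ ⁻¹' N₁, hN₁.preimage Φ.continuous, ?_,
    fun ε hε => ?_⟩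
  · rintro _ ⟨x, hx, rfl⟩
    exact hK'U hx
  · intro x hx
    apply hCN₁
    rw [hmem, Φ.symm_apply_apply]
    exact hx
  obtain ⟨δ, hδ, H⟩ := H (ε / B) (by positivity)
  refine ⟨δ / A, by positivity, fun g hg hc hid hsg => ?_⟩
  have h1 : OE (fun x => Φ (g (Φ.symm x))) (Φ.symm ⁻¹' U) := by
    have e1 : OE Φ.symm (Φ.symm ⁻¹' U) := oe_homeo Φ.symm (hU.preimage Φ.symm.continuous)
    have e2 : OE (g ∘ Φ.symm) (Φ.symm ⁻¹' U) := hg.comp e1 fun x hx => hx
    have e3 : OE Φ (univ : Set (EuclideanSpace ℝ (Fin n))) := oe_homeo Φ isOpen_univ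
    exact e3.comp e2 fun x _ => mem_univ _
  obtain ⟨h, hs, ha, hb, hcl, hd⟩ := H _ h1 (by
      intro w hw
      have e1 := hLA (g (Φ.symm w)) (Φ.symm w)
      rw [Φ.apply_symm_apply] at e1
      refine e1.trans ?_
      calc A * ‖g (Φ.symm w) - Φ.symm w‖ ≤ A * (δ / A) :=
            mul_le_mul_of_nonneg_left (hc _ hw) hA0.le
        _ = δ := by field_simp)
    (by
      intro w hw
      rw [hid (Φ.symm w) ⟨hw.1, hw.2⟩, Φ.apply_symm_apply])
    (by
      intro w hw
      show SignType.sign (Φ (g (Φ.symm w)) 0) = _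
      rw [hΦi, hsg _ hw, hΦsi])
  refine ⟨(Φ.trans h).trans Φ.symm, ?_, ?_, ?_, ?_, ?_⟩
  · intro w
    show SignType.sign (Φ.symm (h (Φ w)) 0) = _
    rw [hΦsi, hs, hΦi]
  · intro w hw
    show Φ.symm (h (Φ w)) = w
    rw [ha, Φ.symm_apply_apply]
    intro hn
    exact hw ⟨Φ w, hn, Φ.symm_apply_apply w⟩
  · intro w hw
    show Φ.symm (h (Φ w)) = w
    rw [hb (Φ w) hw, Φ.symm_apply_apply]
  · intro w
    show ‖Φ.symm (h (Φ w)) - w‖ ≤ ε
    have e1 := hLB (h (Φ w)) (Φ w)
    rw [Φ.symm_apply_apply] at e1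
    refine e1.trans ?_
    calc B * ‖h (Φ w) - Φ w‖ ≤ B * (ε / B) := mul_le_mul_of_nonneg_left (hcl _) hB0.le
      _ = ε := by field_simp
  · intro w hw
    show g w = Φ.symm (h (Φ w))
    have e1 := hd (Φ w) ⟨by rw [hmem, Φ.symm_apply_apply]; exact hw.1, hw.2⟩
    rw [← e1, Φ.symm_apply_apply, Φ.symm_apply_apply]

/-- The reflection. -/
noncomputable def refl (x : EuclideanSpace ℝ (Fin n)) : EuclideanSpace ℝ (Fin n) :=
  x - (2 * x 0) • EuclideanSpace.single (0 : Fin n) (1 : ℝ)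

theorem refl_zero (x : EuclideanSpace ℝ (Fin n)) : refl x 0 = - x 0 := by
  unfold refl
  simp
  ring

theorem refl_refl (x : EuclideanSpace ℝ (Fin n)) : refl (refl x) = x := by
  have h1 : refl (refl x) = refl x - (2 * refl x 0) • EuclideanSpace.single (0 : Fin n) (1 : ℝ) :=
    rfl
  rw [h1, refl_zero]
  unfold refl
  rw [sub_sub, ← add_smul]
  have : 2 * x 0 + 2 * -x 0 = 0 := by ring
  rw [this, zero_smul, sub_zero]

theorem cont_refl : Continuous (refl : EuclideanSpace ℝ (Fin n) → EuclideanSpace ℝ (Fin n)) := by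
  have h0 : Continuous fun x : EuclideanSpace ℝ (Fin n) => x 0 :=
    (EuclideanSpace.proj (0 : Fin n)).continuous
  unfold refl
  fun_prop

theorem norm_refl (x : EuclideanSpace ℝ (Fin n)) : ‖refl x‖ = ‖x‖ := by
  rw [EuclideanSpace.norm_eq, EuclideanSpace.norm_eq]
  congr 1
  refine Finset.sum_congr rfl fun i _ => ?_
  by_cases hi : i = 0
  · subst hi
    rw [refl_zero, norm_neg]
  · unfold refl
    simp [hi]

theorem refl_sub (x y : EuclideanSpace ℝ (Fin n)) : refl x - refl y = refl (x - y) := by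
  unfold refl
  have : (x - y) 0 = x 0 - y 0 := rfl
  rw [this, mul_sub, sub_smul]
  abel

theorem refl_of_zero {x : EuclideanSpace ℝ (Fin n)} (h : x 0 = 0) : refl x = x := by
  unfold refl
  rw [h, mul_zero, zero_smul, sub_zero]

theorem fold_neg {x : EuclideanSpace ℝ (Fin n)} (h : x 0 ≤ 0) : (fold x).1 = refl x := by
  show x + (|x 0| - x 0) • EuclideanSpace.single (0 : Fin n) (1 : ℝ) = _
  unfold refl
  rw [abs_of_nonpos h, sub_eq_add_neg x, ← neg_smul]
  congr 2
  ring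

theorem fold_refl (x : EuclideanSpace ℝ (Fin n)) : fold (refl x) = fold x := by
  apply Subtype.ext
  rcases le_total 0 (x 0) with h | h
  · rw [fold_of h, fold_neg (by rw [refl_zero]; linarith), refl_refl]
  · rw [fold_neg h, fold_of (by rw [refl_zero]; linarith)]

open Classical in
/-- The extension of a map of the half-space by reflection. -/
noncomputable def ext (g : EuclideanHalfSpace n → EuclideanHalfSpace n)
    (x : EuclideanSpace ℝ (Fin n)) : EuclideanSpace ℝ (Fin n) :=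
  if 0 ≤ x 0 then (g (fold x)).1 else refl (g (fold x)).1

theorem ext_pos {g : EuclideanHalfSpace n → EuclideanHalfSpace n}
    {x : EuclideanSpace ℝ (Fin n)} (h : 0 ≤ x 0) : ext g x = (g (fold x)).1 := if_pos h

theorem ext_neg {g : EuclideanHalfSpace n → EuclideanHalfSpace n}
    {x : EuclideanSpace ℝ (Fin n)} (h : ¬ 0 ≤ x 0) : ext g x = refl (g (fold x)).1 := if_neg h

theorem fold_ext (g : EuclideanHalfSpace n → EuclideanHalfSpace n)
    (x : EuclideanSpace ℝ (Fin n)) : fold (ext g x) = g (fold x) := by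
  by_cases h : 0 ≤ x 0
  · rw [ext_pos h, fold_val]
  · rw [ext_neg h, fold_refl, fold_val]

variable {g : EuclideanHalfSpace n → EuclideanHalfSpace n} {U : Set (EuclideanHalfSpace n)}

theorem ext_sign (hg : OE g U) {x : EuclideanSpace ℝ (Fin n)} (hx : fold x ∈ U) :
    SignType.sign (ext g x 0) = SignType.sign (x 0) := by
  have h1 := bd_iff hg hx
  have hnn : 0 ≤ (g (fold x)).1 0 := (g (fold x)).2
  rcases lt_trichotomy (x 0) 0 with h | h | h
  · rw [ext_neg (not_le.2 h), refl_zero, sign_neg h]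
    apply sign_neg
    have h2 : 0 < (fold x).1 0 := by
      rw [fold_neg h.le, refl_zero]
      linarith
    linarith [h1.2 h2]
  · rw [ext_pos h.ge]
    have h2 : (fold x).1 0 = 0 := by rw [fold_of h.ge, h]
    have h3 : ¬ 0 < (g (fold x)).1 0 := by
      rw [h1, h2]
      exact lt_irrefl _
    have h4 : (g (fold x)).1 0 = 0 := le_antisymm (not_lt.1 h3) hnn
    rw [h4, h]
  · rw [ext_pos h.le, sign_pos h]
    apply sign_pos
    rw [h1, fold_of h.le]
    exact h

theorem ext_oe (hg : OE g U) : OE (ext g) (fold ⁻¹' U) := by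
  have hop : IsOpen (fold ⁻¹' U : Set (EuclideanSpace ℝ (Fin n))) := hg.op.preimage cont_fold
  have hc0 : ContinuousOn (fun x : EuclideanSpace ℝ (Fin n) => (g (fold x)).1) (fold ⁻¹' U) :=
    cont_val.comp_continuousOn (hg.cont.comp cont_fold.continuousOn fun y hy => hy)
  have hc1 : ContinuousOn (fun x : EuclideanSpace ℝ (Fin n) => refl (g (fold x)).1) (fold ⁻¹' U) :=
    cont_refl.comp_continuousOn hc0
  have hcx : Continuous fun x : EuclideanSpace ℝ (Fin n) => x 0 :=
    (EuclideanSpace.proj (0 : Fin n)).continuous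
  refine inv_dom hop ?_ ?_
  · intro x hx
    refine ContinuousAt.continuousWithinAt ?_
    have a0 := hc0.continuousAt (hop.mem_nhds hx)
    have a1 := hc1.continuousAt (hop.mem_nhds hx)
    rcases lt_trichotomy (x 0) 0 with h | h | h
    · refine a1.congr ?_
      filter_upwards [(isOpen_lt hcx continuous_const).mem_nhds h] with y hy
      exact (ext_neg (not_le.2 hy)).symm
    · have h2 : (fold x).1 0 = 0 := by rw [fold_of h.ge, h]
      have h3 : ¬ 0 < (g (fold x)).1 0 := by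
        rw [bd_iff hg hx, h2]
        exact lt_irrefl _
      have h4 : (g (fold x)).1 0 = 0 := le_antisymm (not_lt.1 h3) (g (fold x)).2
      have h5 : ext g x = (g (fold x)).1 := ext_pos h.ge
      have h6 : refl (g (fold x)).1 = (g (fold x)).1 := refl_of_zero h4
      rw [ContinuousAt, h5]
      have a1' : Tendsto (fun x : EuclideanSpace ℝ (Fin n) => refl (g (fold x)).1) (𝓝 x)
          (𝓝 (g (fold x)).1) := by
        have := a1.tendsto
        rwa [h6] at this
      refine Metric.tendsto_nhds.2 fun ε hε => ?_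
      filter_upwards [Metric.tendsto_nhds.1 a0 ε hε, Metric.tendsto_nhds.1 a1' ε hε] with y y0 y1
      by_cases hy : 0 ≤ y 0
      · rw [ext_pos hy]
        exact y0
      · rw [ext_neg hy]
        exact y1
    · refine a0.congr ?_
      filter_upwards [(isOpen_lt continuous_const hcx).mem_nhds h] with y hy
      exact (ext_pos (le_of_lt hy)).symm
  · intro x hx y hy hxy
    have h1 : fold x = fold y := by
      apply hg.inj hx hy
      rw [← fold_ext g x, hxy, fold_ext]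
    have h2 : SignType.sign (x 0) = SignType.sign (y 0) := by
      rw [← ext_sign hg hx, hxy, ext_sign hg hy]
    have h3 := congrArg Subtype.val h1
    by_cases h : 0 ≤ x 0
    · have h' : 0 ≤ y 0 := by
        rw [← sign_nonneg_iff, ← h2, sign_nonneg_iff]
        exact h
      rwa [fold_of h, fold_of h'] at h3
    · have h' : ¬ 0 ≤ y 0 := by
        rw [← sign_nonneg_iff, ← h2, sign_nonneg_iff]
        exact h
      rw [fold_neg (le_of_lt (not_le.1 h)), fold_neg (le_of_lt (not_le.1 h'))] at h3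
      rw [← refl_refl x, h3, refl_refl]

/-- The relative straightening theorem in the half-space. -/
theorem ek_half {U K C N : Set (EuclideanHalfSpace n)} (hU : IsOpen U) (hK : IsCompact K)
    (hKU : K ⊆ U) (hC : IsClosed C) (hN : IsOpen N) (hCN : C ⊆ N) :
    ∃ N', IsOpen N' ∧ K ⊆ N' ∧ ∃ K', IsCompact K' ∧ K' ⊆ U ∧ ∃ N₁, IsOpen N₁ ∧ C ⊆ N₁ ∧
      ∀ ε > 0, ∃ δ > 0, ∀ g : EuclideanHalfSpace n → EuclideanHalfSpace n, OE g U →
        (∀ w ∈ U, dist (g w) w ≤ δ) → (∀ w ∈ U ∩ N, g w = w) →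
        ∃ h : EuclideanHalfSpace n ≃ₜ EuclideanHalfSpace n, (∀ w, w ∉ K' → h w = w) ∧
          (∀ w ∈ N₁, h w = w) ∧ (∀ w, dist (h w) w ≤ ε) ∧ ∀ w ∈ U ∩ N', g w = h w := by
  have hKc : IsCompact ((fun x : EuclideanHalfSpace n => x.1) '' K ∪
      refl '' ((fun x : EuclideanHalfSpace n => x.1) '' K)) :=
    (hK.image cont_val).union ((hK.image cont_val).image cont_refl)
  obtain ⟨N', hN', hKN', K', hK', hK'U, N₁, hN₁, hCN₁, H⟩ := ekS (U := fold ⁻¹' U)
    (K := (fun x : EuclideanHalfSpace n => x.1) '' K ∪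
      refl '' ((fun x : EuclideanHalfSpace n => x.1) '' K)) (C := fold ⁻¹' C) (N := fold ⁻¹' N)
    (hU.preimage cont_fold) hKc (by
      rintro _ (⟨x, hx, rfl⟩ | ⟨_, ⟨x, hx, rfl⟩, rfl⟩)
      · show fold x.1 ∈ U
        rw [fold_val]
        exact hKU hx
      · show fold (refl x.1) ∈ U
        rw [fold_refl, fold_val]
        exact hKU hx)
    (hC.preimage cont_fold) (hN.preimage cont_fold) (preimage_mono hCN)
  have hemb : IsClosedEmbedding (fun x : EuclideanHalfSpace n =>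
      (x.1 : EuclideanSpace ℝ (Fin n))) := HS_closed.isClosedEmbedding_subtypeVal
  refine ⟨(fun x : EuclideanHalfSpace n => x.1) ⁻¹' N', hN'.preimage cont_val,
    fun x hx => hKN' (Or.inl ⟨x, hx, rfl⟩), (fun x : EuclideanHalfSpace n => x.1) ⁻¹' K',
    hemb.isCompact_preimage hK', ?_, (fun x : EuclideanHalfSpace n => x.1) ⁻¹' N₁,
    hN₁.preimage cont_val, ?_, fun ε hε => ?_⟩
  · intro x hx
    have h1 : fold x.1 ∈ U := hK'U hx
    rwa [fold_val] at h1
  · intro x hx
    apply hCN₁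
    show fold x.1 ∈ C
    rw [fold_val]
    exact hx
  obtain ⟨δ, hδ, H⟩ := H ε hε
  refine ⟨δ, hδ, fun g hg hc hid => ?_⟩
  obtain ⟨h, hs, ha, hb, hcl, hd⟩ := H (ext g) (ext_oe hg) (by
      intro w hw
      have h1 := hc (fold w) hw
      rw [dist_HS, dist_eq_norm] at h1
      by_cases h0 : 0 ≤ w 0
      · rw [ext_pos h0]
        rwa [fold_of h0] at h1
      · rw [ext_neg h0]
        have h2 : refl (g (fold w)).1 - w = refl ((g (fold w)).1 - (fold w).1) := by
          rw [← refl_sub, fold_neg (le_of_lt (not_le.1 h0)), refl_refl]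
        rw [h2, norm_refl]
        rwa [fold_neg (le_of_lt (not_le.1 h0))] at h1 ⊢)
    (by
      intro w hw
      by_cases h0 : 0 ≤ w 0
      · rw [ext_pos h0, hid _ ⟨hw.1, hw.2⟩, fold_of h0]
      · rw [ext_neg h0, hid _ ⟨hw.1, hw.2⟩, fold_neg (le_of_lt (not_le.1 h0)), refl_refl])
    (fun w hw => ext_sign hg hw)
  have hs' : ∀ w, SignType.sign (h.symm w 0) = SignType.sign (w 0) := by
    intro w
    rw [← hs (h.symm w), h.apply_symm_apply]
  have hnn : ∀ x : EuclideanHalfSpace n, 0 ≤ h x.1 0 := by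
    intro x
    rw [← sign_nonneg_iff, hs, sign_nonneg_iff]
    exact x.2
  have hnn' : ∀ x : EuclideanHalfSpace n, 0 ≤ h.symm x.1 0 := by
    intro x
    rw [← sign_nonneg_iff, hs', sign_nonneg_iff]
    exact x.2
  have hcont : Continuous fun x : EuclideanHalfSpace n =>
      (⟨h x.1, hnn x⟩ : EuclideanHalfSpace n) := (h.continuous.comp cont_val).subtype_mk _
  have hcont' : Continuous fun x : EuclideanHalfSpace n =>
      (⟨h.symm x.1, hnn' x⟩ : EuclideanHalfSpace n) :=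
    (h.symm.continuous.comp cont_val).subtype_mk _
  refine ⟨{ toFun := fun x => ⟨h x.1, hnn x⟩
            invFun := fun x => ⟨h.symm x.1, hnn' x⟩
            left_inv := fun x => Subtype.ext (h.symm_apply_apply x.1)
            right_inv := fun x => Subtype.ext (h.apply_symm_apply x.1)
            continuous_toFun := hcont
            continuous_invFun := hcont' }, ?_, ?_, ?_, ?_⟩
  · intro w hw
    exact Subtype.ext (ha w.1 hw)
  · intro w hw
    exact Subtype.ext (hb w.1 hw)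
  · intro w
    rw [dist_HS, dist_eq_norm]
    exact hcl w.1
  · intro w hw
    apply Subtype.ext
    have h1 := hd w.1 ⟨by
      show fold w.1 ∈ U
      rw [fold_val]
      exact hw.1, hw.2⟩
    rw [ext_pos w.2, fold_val] at h1
    exact h1

end Pool.Agent.H655.BK
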