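import Pool.Agent.H655.BK.Iter

/-!
Straightening of near identity embeddings over a handle, for maps which preserve a half-space.
-/

open Set Filter Topology Metric

namespace Pool.Agent.H655.BK

open Pool.Agent.H655.EK

theorem sign_smul {c : ℝ} (hc : 0 < c) (t : ℝ) : SignType.sign (c * t) = SignType.sign t := by
  rw [sign_mul, sign_pos hc, one_mul]

section
variable {E : Type*} [NormedAddCommGroup E] [NormedSpace ℝ E]

/-- Compression of a bounded homeomorphism into a ball, for maps which preserve a function `σ`. -/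
theorem compressS (H : E ≃ₜ E) {β : ℝ} (hβ : ∀ x, ‖H x - x‖ ≤ β) {Sg : Type*} (σ : E → Sg)
    (hσ : ∀ c : ℝ, 0 < c → ∀ w, σ (c • w) = σ w) (hH : ∀ w, σ (H w) = σ w) :
    ∃ h : E ≃ₜ E, (∀ w, 2 ≤ ‖w‖ → h w = w) ∧ (∀ w, ‖h w - w‖ ≤ 8 * β) ∧
      (∀ w, ‖w‖ ≤ 1 → ‖H w‖ ≤ 1 → h w = H w) ∧
      (∀ w, ‖w‖ < 2 → (∀ c : ℝ, 1 ≤ c → H (c • w) = c • w) → h w = w) ∧
      (∀ w, σ (h w) = σ w) := by
  have hβ0 : 0 ≤ β := (norm_nonneg _).trans (hβ 0)
  have hβ' : ∀ x, ‖H.symm x - x‖ ≤ β := by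
    intro x
    have := hβ (H.symm x)
    rwa [H.apply_symm_apply, norm_sub_rev] at this
  refine ⟨{ toFun := cmp H
            invFun := cmp H.symm
            left_inv := cmp_cmp H.symm_apply_apply
            right_inv := cmp_cmp H.apply_symm_apply
            continuous_toFun := continuous_cmp H.continuous hβ
            continuous_invFun := continuous_cmp H.symm.continuous hβ' }, ?_, ?_, ?_, ?_, ?_⟩
  · intro w hw
    exact cmp_of_ge hw
  · intro w
    refine (cmp_close hβ w).trans ?_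
    have h1 : max (2 - ‖w‖) 0 ≤ 2 := max_le (by linarith [norm_nonneg w]) (by norm_num)
    nlinarith
  · intro w hw hHw
    show cmp H w = H w
    rw [cmp_of_lt (by linarith), radi_of_le hw, rad_of_le hHw]
  · intro w hw hid
    show cmp H w = w
    rw [cmp_of_lt hw]
    have h1 : 1 ≤ (rm w * (2 - rm w))⁻¹ := by
      have h2 : rm w < 2 := max_lt hw (by norm_num)
      refine (one_le_inv₀ (mul_pos (rm_pos w) (by linarith))).2 ?_
      nlinarith [sq_nonneg (rm w - 1)]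
    have h3 : H (radi w) = radi w := hid _ h1
    rw [h3, rad_radi hw]
  · intro w
    show σ (cmp H w) = σ w
    rcases lt_or_ge ‖w‖ 2 with hw | hw
    · rw [cmp_of_lt hw]
      have h1 : ∀ x : E, σ (rad x) = σ x := by
        intro x
        refine hσ _ (mul_pos (rmi_pos x) ?_) x
        linarith [rmi_le x]
      have h2 : σ (radi w) = σ w := by
        refine hσ _ ?_ w
        have h3 : rm w < 2 := max_lt hw (by norm_num)
        exact inv_pos.2 (mul_pos (rm_pos w) (by linarith))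
      rw [h1, hH, h2]
    · rw [cmp_of_ge hw]

end

variable {ι : Type*} [Fintype ι] [DecidableEq ι]

/-- Straightening over the standard handle. -/
theorem handle0S (n : ι) (A : Finset ι) : ∀ ε > 0, ∃ δ > 0, ∀ g : (ι → ℝ) → (ι → ℝ),
    OE g (slab A 4) → (∀ w ∈ slab A 4, ‖g w - w‖ ≤ δ) →
    (∀ w ∈ slab A 4, (∃ i, i ∉ A ∧ 1 / 2 ≤ |w i|) → g w = w) →
    (∀ w ∈ slab A 4, SignType.sign (g w n) = SignType.sign (w n)) →
    ∃ h : (ι → ℝ) ≃ₜ (ι → ℝ), (∀ w, SignType.sign (h w n) = SignType.sign (w n)) ∧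
      (∀ w, h w ≠ w → (∀ i, i ∉ A → |w i| < 1 / 2) ∧ ∀ i ∈ A, |w i| < 2) ∧
      (∀ w, ‖h w - w‖ ≤ ε) ∧ (∀ w, (∀ i ∈ A, |w i| < 1 / 2) → h w = g w) := by
  intro ε hε
  obtain ⟨δ, hδ, H0⟩ := iter_homeoS n A (min (ε / 8) (1 / 2)) (lt_min (by linarith) (by norm_num))
  refine ⟨δ, hδ, fun g hg hc hid hsg => ?_⟩
  obtain ⟨H, hHs, hH1, hH2, hH3⟩ := H0 g hg hc hsg
  obtain ⟨h, h1, h2, h3, h4, h5⟩ := compressS H hH1 (fun w => SignType.sign (w n))
    (fun c hc w => sign_smul hc (w n)) hHs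
  set Y : Set (ι → ℝ) := {w | ∃ i, i ∉ A ∧ 1 / 2 ≤ |w i|} with hY
  have hYid : ∀ w ∈ Y, H w = w := by
    refine hH3 Y ?_ fun w hw => hid w hw.1 hw.2
    rintro w ⟨i, hi, hwi⟩ j hj s
    refine ⟨i, hi, ?_⟩
    have hij : i ≠ j := by
      rintro rfl
      exact hi hj
    rw [coord_add_ne hij]
    exact hwi
  have hYh : ∀ w ∈ Y, h w = w := by
    intro w hw
    rcases lt_or_ge ‖w‖ 2 with h5 | h5
    · refine h4 w h5 ?_
      intro c hc
      apply hYid
      obtain ⟨i, hi, hwi⟩ := hw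
      refine ⟨i, hi, ?_⟩
      rw [Pi.smul_apply, smul_eq_mul, abs_mul, abs_of_nonneg (by linarith)]
      nlinarith
    · exact h1 w h5
  refine ⟨h, h5, ?_, ?_, ?_⟩
  · intro w hw
    have h5 : w ∉ Y := fun h => hw (hYh w h)
    have h6 : ‖w‖ < 2 := by
      by_contra hn
      exact hw (h1 w (not_lt.1 hn))
    refine ⟨?_, ?_⟩
    · intro i hi
      by_contra hn
      exact h5 ⟨i, hi, not_lt.1 hn⟩
    · intro i _
      have := norm_le_pi_norm w i
      rw [Real.norm_eq_abs] at this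
      linarith
  · intro w
    refine (h2 w).trans ?_
    have := min_le_left (ε / 8) (1 / 2)
    linarith
  · intro w hw
    by_cases h5 : w ∈ Y
    · rw [hYh w h5]
      exact (hid w (fun i hi => (hw i hi).trans (by norm_num)) h5).symm
    · have h6 : ‖w‖ ≤ 1 / 2 := by
        rw [pi_norm_le_iff_of_nonneg (by norm_num)]
        intro i
        rw [Real.norm_eq_abs]
        by_cases hi : i ∈ A
        · exact (hw i hi).le
        · by_contra hn
          exact h5 ⟨i, hi, (not_le.1 hn).le⟩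
      have h7 : H w = g w := hH2 w fun i hi => (hw i hi).trans (by norm_num)
      rw [← h7]
      refine h3 w (h6.trans (by norm_num)) ?_
      have h8 := hH1 w
      have h9 := min_le_right (ε / 8) (1 / 2 : ℝ)
      have h10 : ‖H w‖ ≤ ‖H w - w‖ + ‖w‖ := by
        have := norm_add_le (H w - w) w
        simpa using this
      linarith

/-- Straightening over a general handle. -/
theorem handle1S (n : ι) (A : Finset ι) (c : ι → ℝ) (hcn : c n = 0) {a R : ℝ} (ha : 0 < a)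
    (hR : 0 < R) :
    ∀ ε > 0, ∃ δ > 0, ∀ g : (ι → ℝ) → (ι → ℝ),
    OE g {w | ∀ i ∈ A, |w i - c i| < R} →
    (∀ w, (∀ i ∈ A, |w i - c i| < R) → ‖g w - w‖ ≤ δ) →
    (∀ w, (∀ i ∈ A, |w i - c i| < R) → (∃ i, i ∉ A ∧ a ≤ |w i - c i|) → g w = w) →
    (∀ w, (∀ i ∈ A, |w i - c i| < R) → SignType.sign (g w n) = SignType.sign (w n)) →
    ∃ h : (ι → ℝ) ≃ₜ (ι → ℝ), (∀ w, SignType.sign (h w n) = SignType.sign (w n)) ∧
      (∀ w, h w ≠ w → (∀ i, i ∉ A → |w i - c i| < a) ∧ ∀ i ∈ A, |w i - c i| < R / 2) ∧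
      (∀ w, ‖h w - w‖ ≤ ε) ∧ (∀ w, (∀ i ∈ A, |w i - c i| < R / 8) → h w = g w) := by
  intro ε hε
  set κ : ι → ℝ := fun i => if i ∈ A then R / 4 else 2 * a with hκdef
  have hκA : ∀ i ∈ A, κ i = R / 4 := fun i hi => if_pos hi
  have hκB : ∀ i, i ∉ A → κ i = 2 * a := fun i hi => if_neg hi
  have hκ : ∀ i, 0 < κ i := by
    intro i
    by_cases hi : i ∈ A
    · rw [hκA i hi]
      positivity
    · rw [hκB i hi]
      positivity
  set M := max (R / 4) (2 * a) with hM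
  set μ := min (R / 4) (2 * a) with hμ
  have hM0 : 0 < M := lt_max_of_lt_left (by positivity)
  have hμ0 : 0 < μ := lt_min (by positivity) (by positivity)
  have hκM : ∀ i, κ i ≤ M := by
    intro i
    by_cases hi : i ∈ A
    · rw [hκA i hi]
      exact le_max_left _ _
    · rw [hκB i hi]
      exact le_max_right _ _
  have hκμ : ∀ i, μ ≤ κ i := by
    intro i
    by_cases hi : i ∈ A
    · rw [hκA i hi]
      exact min_le_left _ _
    · rw [hκB i hi]
      exact min_le_right _ _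
  set Φ := aff c κ hκ with hΦ
  have hΦa : ∀ x i, Φ x i - c i = κ i * x i := by
    intro x i
    show c i + κ i * x i - c i = _
    ring
  have hΦs : ∀ w i, Φ.symm w i = (w i - c i) / κ i := fun w i => rfl
  have hΦabs : ∀ x i, |Φ x i - c i| = κ i * |x i| := by
    intro x i
    rw [hΦa, abs_mul, abs_of_pos (hκ i)]
  have hΦsabs : ∀ w i, κ i * |Φ.symm w i| = |w i - c i| := by
    intro w i
    rw [← hΦabs, Φ.apply_symm_apply]
  have hΦlip : ∀ x y, ‖Φ x - Φ y‖ ≤ M * ‖x - y‖ := by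
    intro x y
    rw [pi_norm_le_iff_of_nonneg (by positivity)]
    intro i
    have h1 : (Φ x - Φ y) i = κ i * (x - y) i := by
      show c i + κ i * x i - (c i + κ i * y i) = κ i * (x i - y i)
      ring
    rw [h1, Real.norm_eq_abs, abs_mul, abs_of_pos (hκ i)]
    have h2 := norm_le_pi_norm (x - y) i
    rw [Real.norm_eq_abs] at h2
    exact mul_le_mul (hκM i) h2 (abs_nonneg _) hM0.le
  have hΦslip : ∀ v w, ‖Φ.symm v - Φ.symm w‖ ≤ μ⁻¹ * ‖v - w‖ := by
    intro v w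
    rw [pi_norm_le_iff_of_nonneg (by positivity)]
    intro i
    have h1 : (Φ.symm v - Φ.symm w) i = (κ i)⁻¹ * (v - w) i := by
      show (v i - c i) / κ i - (w i - c i) / κ i = (κ i)⁻¹ * (v i - w i)
      ring
    rw [h1, Real.norm_eq_abs, abs_mul, abs_of_pos (inv_pos.2 (hκ i))]
    have h2 := norm_le_pi_norm (v - w) i
    rw [Real.norm_eq_abs] at h2
    exact mul_le_mul (inv_anti₀ hμ0 (hκμ i)) h2 (abs_nonneg _) (inv_pos.2 hμ0).le
  obtain ⟨δ', hδ', H0⟩ := handle0S n A (ε / M) (by positivity)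
  refine ⟨δ' * μ, by positivity, fun g hg hc hid hsg => ?_⟩
  have hdom : ∀ x ∈ slab A 4, ∀ i ∈ A, |Φ x i - c i| < R := by
    intro x hx i hi
    rw [hΦabs, hκA i hi]
    have := hx i hi
    nlinarith
  set g' : (ι → ℝ) → (ι → ℝ) := fun x => Φ.symm (g (Φ x)) with hg'
  have h1 : OE g' (slab A 4) := by
    have e1 : OE Φ (slab A 4) := oe_homeo Φ (slab_open A 4)
    have e2 : OE (g ∘ Φ) (slab A 4) := hg.comp e1 hdom
    have e3 : OE Φ.symm (univ : Set (ι → ℝ)) := oe_homeo Φ.symm isOpen_univ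
    exact e3.comp e2 fun x _ => mem_univ _
  have h2 : ∀ x ∈ slab A 4, ‖g' x - x‖ ≤ δ' := by
    intro x hx
    have e1 := hΦslip (g (Φ x)) (Φ x)
    rw [Φ.symm_apply_apply] at e1
    refine e1.trans ?_
    have e2 := hc (Φ x) (hdom x hx)
    calc μ⁻¹ * ‖g (Φ x) - Φ x‖ ≤ μ⁻¹ * (δ' * μ) :=
          mul_le_mul_of_nonneg_left e2 (inv_pos.2 hμ0).le
      _ = δ' := by field_simp
  have h3 : ∀ x ∈ slab A 4, (∃ i, i ∉ A ∧ 1 / 2 ≤ |x i|) → g' x = x := by
    rintro x hx ⟨i, hi, hxi⟩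
    show Φ.symm (g (Φ x)) = x
    rw [hid (Φ x) (hdom x hx) ⟨i, hi, ?_⟩, Φ.symm_apply_apply]
    rw [hΦabs, hκB i hi]
    nlinarith
  have hsΦ : ∀ x, SignType.sign (Φ x n) = SignType.sign (x n) := by
    intro x
    have e1 := hΦa x n
    rw [hcn, sub_zero] at e1
    rw [e1]
    exact sign_smul (hκ n) (x n)
  have hsΦs : ∀ w, SignType.sign (Φ.symm w n) = SignType.sign (w n) := by
    intro w
    rw [← hsΦ (Φ.symm w), Φ.apply_symm_apply]
  obtain ⟨h, hhs, hh1, hh2, hh3⟩ := H0 g' h1 h2 h3 (by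
    intro x hx
    show SignType.sign (Φ.symm (g (Φ x)) n) = _
    rw [hsΦs, hsg (Φ x) (hdom x hx), hsΦ])
  refine ⟨(Φ.symm.trans h).trans Φ, ?_, ?_, ?_, ?_⟩
  · intro w
    show SignType.sign (Φ (h (Φ.symm w)) n) = _
    rw [hsΦ, hhs, hsΦs]
  · intro w hw
    have e1 : h (Φ.symm w) ≠ Φ.symm w := by
      intro e
      apply hw
      show Φ (h (Φ.symm w)) = w
      rw [e, Φ.apply_symm_apply]
    obtain ⟨e2, e3⟩ := hh1 _ e1
    constructor
    · intro i hi
      rw [← hΦsabs, hκB i hi]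
      have := e2 i hi
      nlinarith
    · intro i hi
      rw [← hΦsabs, hκA i hi]
      have := e3 i hi
      nlinarith
  · intro w
    have e1 := hΦlip (h (Φ.symm w)) (Φ.symm w)
    rw [Φ.apply_symm_apply] at e1
    refine e1.trans ?_
    have e2 := hh2 (Φ.symm w)
    calc M * ‖h (Φ.symm w) - Φ.symm w‖ ≤ M * (ε / M) := mul_le_mul_of_nonneg_left e2 hM0.le
      _ = ε := by field_simp
  · intro w hw
    show Φ (h (Φ.symm w)) = g w
    rw [hh3 (Φ.symm w) ?_]
    · show Φ (Φ.symm (g (Φ (Φ.symm w)))) = g w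
      rw [Φ.apply_symm_apply, Φ.apply_symm_apply]
    · intro i hi
      have e1 := hw i hi
      rw [← hΦsabs, hκA i hi] at e1
      nlinarith

end Pool.Agent.H655.BK
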