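import Pool.Agent.H655.BK.Grid
import Pool.Graph.R_seed8.H815.HF.InvDom

/-!
The half-space, folding, and the invariance of the boundary.
-/

open Set Filter Topology Metric

namespace Pool.Agent.H655.BK

open Pool.Agent.H655.EK

variable {n : ℕ} [NeZero n]

noncomputable instance metHS : MetricSpace (EuclideanHalfSpace n) :=
  inferInstanceAs (MetricSpace {x : EuclideanSpace ℝ (Fin n) // 0 ≤ x 0})

theorem dist_HS (x y : EuclideanHalfSpace n) : dist x y = dist x.1 y.1 := rfl

theorem HS_closed : IsClosed {x : EuclideanSpace ℝ (Fin n) | 0 ≤ x 0} :=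
  isClosed_le continuous_const (EuclideanSpace.proj (0 : Fin n)).continuous

instance : ProperSpace (EuclideanHalfSpace n) := by
  refine ⟨fun x r => ?_⟩
  have h1 : Metric.closedBall x r =
      (Subtype.val : {x : EuclideanSpace ℝ (Fin n) // 0 ≤ x 0} → EuclideanSpace ℝ (Fin n)) ⁻¹'
        (Metric.closedBall x.1 r) := by
    ext y
    rfl
  rw [h1]
  exact HS_closed.isClosedEmbedding_subtypeVal.isCompact_preimage (isCompact_closedBall _ _)

theorem cont_val : Continuous (fun x : EuclideanHalfSpace n => (x.1 : EuclideanSpace ℝ (Fin n))) :=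
  continuous_subtype_val

/-- The retraction of the space to the half-space which folds the other half. -/
noncomputable def fold (x : EuclideanSpace ℝ (Fin n)) : EuclideanHalfSpace n :=
  ⟨x + (|x 0| - x 0) • EuclideanSpace.single (0 : Fin n) (1 : ℝ), by simp⟩

theorem cont_fold : Continuous (fold : EuclideanSpace ℝ (Fin n) → EuclideanHalfSpace n) := by
  have h0 : Continuous fun x : EuclideanSpace ℝ (Fin n) => x 0 :=
    (EuclideanSpace.proj (0 : Fin n)).continuous
  have h1 : Continuous fun x : EuclideanSpace ℝ (Fin n) =>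
      x + (|x 0| - x 0) • EuclideanSpace.single (0 : Fin n) (1 : ℝ) := by
    fun_prop
  exact h1.subtype_mk _

theorem fold_of {x : EuclideanSpace ℝ (Fin n)} (h : 0 ≤ x 0) : (fold x).1 = x := by
  show x + (|x 0| - x 0) • EuclideanSpace.single (0 : Fin n) (1 : ℝ) = x
  rw [abs_of_nonneg h, sub_self, zero_smul, add_zero]

theorem fold_val (x : EuclideanHalfSpace n) : fold x.1 = x := Subtype.ext (fold_of x.2)

/-- Invariance of domain. -/
theorem inv_dom {f : EuclideanSpace ℝ (Fin n) → EuclideanSpace ℝ (Fin n)}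
    {U : Set (EuclideanSpace ℝ (Fin n))} (hU : IsOpen U) (hc : ContinuousOn f U) (hi : InjOn f U) :
    OE f U := by
  refine ⟨hU, hc, hi, ?_⟩
  intro V hV hVo
  rw [isOpen_iff_mem_nhds]
  rintro _ ⟨x, hx, rfl⟩
  obtain ⟨r, hr, hrV⟩ := Metric.nhds_basis_closedBall.mem_iff.1 (hVo.mem_nhds hx)
  have h1 := Pool.Agent.H815.HF.InvDom.image_mem_nhds f x r hr (hc.mono (hrV.trans hV))
    (hi.mono (hrV.trans hV))
  exact mem_of_superset h1 (image_mono hrV)

theorem nonneg_nhds {y : EuclideanSpace ℝ (Fin n)}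
    (h : {x : EuclideanSpace ℝ (Fin n) | 0 ≤ x 0} ∈ 𝓝 y) : 0 < y 0 := by
  have h1 : Tendsto (fun t : ℝ => y - t • EuclideanSpace.single (0 : Fin n) (1 : ℝ)) (𝓝 0) (𝓝 y) := by
    have h2 : Continuous fun t : ℝ => y - t • EuclideanSpace.single (0 : Fin n) (1 : ℝ) := by
      fun_prop
    have h3 := h2.tendsto 0
    simpa using h3
  have h4 := h1.eventually h
  rw [Metric.eventually_nhds_iff] at h4
  obtain ⟨ε, hε, h5⟩ := h4
  have h6 := h5 (y := ε / 2) (by rw [Real.dist_eq, sub_zero, abs_of_pos (by linarith)]; linarith)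
  have h7 : (0 : ℝ) ≤ (y - (ε / 2) • EuclideanSpace.single (0 : Fin n) (1 : ℝ)) 0 := h6
  simp at h7
  linarith

/-- Interior points go to interior points. -/
theorem int_of_oe {g : EuclideanHalfSpace n → EuclideanHalfSpace n}
    {U : Set (EuclideanHalfSpace n)} (hg : OE g U) {x : EuclideanHalfSpace n} (hx : x ∈ U)
    (h0 : 0 < x.1 0) : 0 < (g x).1 0 := by
  set O : Set (EuclideanSpace ℝ (Fin n)) := {y | 0 < y 0} ∩ fold ⁻¹' U with hO
  have hOo : IsOpen O := (isOpen_lt continuous_const
    (EuclideanSpace.proj (0 : Fin n)).continuous).inter (hg.op.preimage cont_fold)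
  have hxO : x.1 ∈ O := ⟨h0, by
    show fold x.1 ∈ U
    rw [fold_val]
    exact hx⟩
  have h1 : OE (fun y => (g (fold y)).1) O := by
    refine inv_dom hOo ?_ ?_
    · refine cont_val.comp_continuousOn (hg.cont.comp cont_fold.continuousOn ?_)
      exact fun y hy => hy.2
    · intro y hy y' hy' h
      have h2 := hg.inj hy.2 hy'.2 (Subtype.ext h)
      have h3 := congrArg Subtype.val h2
      rwa [fold_of (le_of_lt hy.1), fold_of (le_of_lt hy'.1)] at h3
  have h2 := h1.isOpen_image.mem_nhds ⟨x.1, hxO, rfl⟩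
  have h3 : (fun y => (g (fold y)).1) x.1 = (g x).1 := by
    show (g (fold x.1)).1 = _
    rw [fold_val]
  rw [h3] at h2
  refine nonneg_nhds (mem_of_superset h2 ?_)
  rintro _ ⟨y, _, rfl⟩
  exact (g (fold y)).2

/-- Local homeomorphisms of the half-space preserve the boundary. -/
theorem bd_iff {g : EuclideanHalfSpace n → EuclideanHalfSpace n}
    {U : Set (EuclideanHalfSpace n)} (hg : OE g U) {x : EuclideanHalfSpace n} (hx : x ∈ U) :
    0 < (g x).1 0 ↔ 0 < x.1 0 := by
  refine ⟨fun h => ?_, fun h => int_of_oe hg hx h⟩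
  obtain ⟨gi, hgi, h1, _⟩ := hg.symm
  have h2 := int_of_oe hgi ⟨x, hx, rfl⟩ h
  rwa [h1 x hx] at h2

end Pool.Agent.H655.BK
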