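import Pool.Agent.H655.EK.Main

/-!
Extension of a near identity embedding of a slab in the direction transversal to the slab, for maps
which preserve the level sets of a function.
-/

open Set Filter Topology Metric

namespace Pool.Agent.H655.BK

open Pool.Agent.H655.EK

variable {X : Type*} [NormedAddCommGroup X] [NormedSpace ℝ X]

/-- The data of the first construction, for maps which preserve a function `σ`. -/
theorem windowS [ProperSpace X] (D : Dir X) {O : Set X}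
    (hv : ∀ w ∈ O, ∀ s : ℝ, w + s • D.e ∈ O) {g : X → X} {δ : ℝ} (hδ0 : 0 < δ)
    (hδ : δ ≤ 1 / 1000) (hg : OE g (O ∩ {w | |D.τ w| < 7 / 2}))
    (hc : ∀ w ∈ O, |D.τ w| < 7 / 2 → ‖g w - w‖ ≤ δ)
    {Sg : Type*} (σ : X → Sg) (hσ : ∀ (w : X) (s : ℝ), σ (w + s • D.e) = σ w)
    (hgσ : ∀ w ∈ O, |D.τ w| < 7 / 2 → σ (g w) = σ w) :
    ∃ Ψ : X → X, OE Ψ (core O δ ∩ {w | -(9 / 10) < D.τ w ∧ D.τ w < 49 / 10}) ∧
      (∀ w ∈ core O δ, -(9 / 10) < D.τ w → D.τ w < 49 / 10 → ‖Ψ w - w‖ ≤ 41 * δ) ∧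
      (∀ w ∈ core O δ, -(9 / 10) < D.τ w → D.τ w ≤ 1 → Ψ w = g w) ∧
      (∀ w ∈ core O δ, 31 / 10 < D.τ w → D.τ w < 49 / 10 →
        Ψ w = g (w + (-4 : ℝ) • D.e) + (4 : ℝ) • D.e) ∧
      (∀ w ∈ core O δ, -(9 / 10) < D.τ w → D.τ w < 49 / 10 →
        (∀ s : ℝ, |D.τ w + s| < 7 / 2 → g (w + s • D.e) = w + s • D.e) → Ψ w = w) ∧
      (∀ w ∈ core O δ, -(9 / 10) < D.τ w → D.τ w < 49 / 10 → σ (Ψ w) = σ w) := by
  classical
  have hne : Nonempty X := ⟨0⟩
  set S : Set X := O ∩ {w | |D.τ w| < 7 / 2} with hS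
  obtain ⟨gi, hgi, hgi1, hgi2⟩ := hg.symm
  set C := D.vert cmap with hC
  set R := D.vert rmap with hR
  set W : Set X := core O δ ∩ {w | -(9 / 10) < D.τ w ∧ D.τ w < 49 / 10} with hW
  have hWo : IsOpen W := by
    refine (core_open O δ).inter ?_
    exact (isOpen_lt continuous_const D.τ.continuous).inter
      (isOpen_lt D.τ.continuous continuous_const)
  have hCs : ∀ w, C.symm w = D.vert cmap.symm w := fun w => rfl
  have hRs : ∀ w, R.symm w = D.vert rmap.symm w := fun w => rfl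
  set u : X → X := fun w => R.symm (g (R (C w))) with hu
  -- the point `R (C w)`
  have hRC : ∀ w ∈ W, R (C w) ∈ S := by
    intro w hw
    have h1 := cmap_bounds hw.2.1 hw.2.2
    constructor
    · have h2 := core_sub hδ0.le hw.1
      exact hv _ (hv _ h2 _) _
    · show |D.τ (R (C w))| < 7 / 2
      rw [hR, hC, D.τ_vert, D.τ_vert, abs_lt]
      constructor <;> linarith [h1.2.1, h1.2.2.1]
  have hgRC : ∀ w ∈ W, ‖g (R (C w)) - R (C w)‖ ≤ δ := fun w hw =>
    hc _ (hRC w hw).1 (hRC w hw).2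
  have huC : ∀ w ∈ W, ‖u w - C w‖ ≤ 9 * δ := by
    intro w hw
    have h1 := D.vert_lip rmap.symm (L := 9) (by norm_num) rmap_symm_lip (g (R (C w))) (R (C w))
    have h2 : D.vert rmap.symm (R (C w)) = C w := R.symm_apply_apply (C w)
    rw [h2] at h1
    have h3 := hgRC w hw
    show ‖D.vert rmap.symm (g (R (C w))) - C w‖ ≤ _
    linarith
  have hτu : ∀ w ∈ W, |D.τ (u w) - cmap (D.τ w)| ≤ 9 * δ := by
    intro w hw
    have h1 := D.le (u w - C w)
    rw [map_sub, hC, D.τ_vert] at h1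
    exact h1.trans (huC w hw)
  have hball : ∀ w ∈ W, ball (u w) (5 * δ) ⊆ O := by
    intro w hw
    have e1 : ∃ s : ℝ, R (C w) = w + s • D.e := by
      refine ⟨(cmap (D.τ w) - D.τ w) + (rmap (D.τ (C w)) - D.τ (C w)), ?_⟩
      rw [hR, hC, D.vert_apply rmap, D.vert_apply cmap, add_smul, add_assoc]
    obtain ⟨s, hs⟩ := e1
    have e2 : u w = g (R (C w)) + (rmap.symm (D.τ (g (R (C w)))) - D.τ (g (R (C w)))) • D.e := rfl
    set s' := rmap.symm (D.τ (g (R (C w)))) - D.τ (g (R (C w))) with hs'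
    refine core_near hv hw.1 (s := s + s') ?_
    have e3 : u w - (w + (s + s') • D.e) = g (R (C w)) - R (C w) := by
      rw [e2, hs, add_smul]
      abel
    rw [e3]
    exact hgRC w hw
  -- the inverse of `g` at `u w`
  have hgu : ∀ w ∈ W, D.τ (u w) < 11 / 4 → u w ∈ g '' S ∧ ‖gi (u w) - u w‖ ≤ δ := by
    intro w hw hlt
    have h1 := cmap_bounds hw.2.1 hw.2.2
    have h2 := abs_le.1 (hτu w hw)
    have hsub : ball (u w) (3 * δ) ⊆ S := by
      intro y hy
      refine ⟨hball w hw (ball_subset_ball (by linarith) hy), ?_⟩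
      rw [mem_ball_iff_norm] at hy
      have h3 := abs_le.1 ((D.le (y - u w)).trans hy.le)
      rw [map_sub] at h3
      show |D.τ y| < 7 / 2
      rw [abs_lt]
      constructor <;> linarith [h1.1, h1.2.2.2, hw.2.2]
    obtain ⟨x, hx, hx1, hx2⟩ := cover (f := g) (w := u w) (r := 3 * δ) (δ := δ)
      (hg.mono isOpen_ball hsub) (fun x hx => hc x (hsub hx).1 (hsub hx).2) (by linarith) hδ0.le
    have h4 : gi (u w) = x := by
      rw [← hx2]
      exact hgi1 x (hsub hx)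
    rw [h4]
    exact ⟨⟨x, hsub hx, hx2⟩, hx1⟩
  have hτgi : ∀ w ∈ W, D.τ (u w) < 11 / 4 → |D.τ (gi (u w)) - D.τ (u w)| ≤ δ := by
    intro w hw hlt
    have h := (D.le (gi (u w) - u w)).trans (hgu w hw hlt).2
    rwa [map_sub] at h
  have hτlow : ∀ w ∈ W, -(13 / 5) < D.τ (u w) := by
    intro w hw
    have h1 := cmap_bounds hw.2.1 hw.2.2
    have h2 := abs_le.1 (hτu w hw)
    linarith [h1.1]
  have hCgi : ∀ w ∈ W, D.τ (u w) < 11 / 4 → C.symm (gi (u w)) ∈ S := by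
    intro w hw hlt
    have h1 := (hgi2 _ (hgu w hw hlt).1).1
    refine ⟨hv _ h1.1 _, ?_⟩
    show |D.τ (C.symm (gi (u w)))| < 7 / 2
    have h2 := abs_le.1 (hτgi w hw hlt)
    have h3 := hτlow w hw
    have h4 := cmap_symm_bounds (s := D.τ (gi (u w))) (by linarith) (by linarith)
    rw [hCs, D.τ_vert, abs_lt]
    constructor <;> linarith [h4.1, h4.2.1]
  -- the map
  set Ψ₁ : X → X := fun w => g (C.symm (gi (u w))) with hΨ₁
  set Ψ : X → X := fun w => if D.τ (u w) < 5 / 2 then Ψ₁ w else u w with hΨ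
  have hOEu : OE u W := by
    have h1 : OE (fun w => R (C w)) W := oe_homeo (C.trans R) hWo
    have h2 : OE (g ∘ fun w => R (C w)) W := hg.comp h1 hRC
    have h3 : OE R.symm (univ : Set X) := oe_homeo R.symm isOpen_univ
    exact h3.comp h2 fun x _ => mem_univ _
  have hcontτu : ContinuousOn (fun w => D.τ (u w)) W := D.τ.continuous.comp_continuousOn hOEu.cont
  set W₁ : Set X := W ∩ {w | D.τ (u w) < 5 / 2} with hW₁
  have hW₁o : IsOpen W₁ := hcontτu.isOpen_inter_preimage hWo isOpen_Iio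
  set W₂ : Set X := W ∩ {w | 9 / 4 < D.τ (u w)} with hW₂
  have hW₂o : IsOpen W₂ := hcontτu.isOpen_inter_preimage hWo isOpen_Ioi
  have hOE1 : OE Ψ₁ W₁ := by
    have h1 : OE u W₁ := hOEu.mono hW₁o inter_subset_left
    have h2 : OE (gi ∘ u) W₁ := hgi.comp h1 fun x hx =>
      (hgu x hx.1 (lt_trans hx.2 (by norm_num))).1
    have h3 : OE C.symm (univ : Set X) := oe_homeo C.symm isOpen_univ
    have h4 : OE (C.symm ∘ (gi ∘ u)) W₁ := h3.comp h2 fun x _ => mem_univ _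
    exact hg.comp h4 fun x hx => hCgi x hx.1 (lt_trans hx.2 (by norm_num))
  have hΨ₁u : ∀ w ∈ W, 9 / 4 < D.τ (u w) → D.τ (u w) < 11 / 4 → Ψ₁ w = u w := by
    intro w hw h1 h2
    have h3 := abs_le.1 (hτgi w hw h2)
    have h4 : C.symm (gi (u w)) = gi (u w) := by
      rw [hCs]
      exact D.vert_fix _ (cmap_symm_fix (by linarith))
    show g (C.symm (gi (u w))) = u w
    rw [h4]
    exact (hgi2 _ (hgu w hw h2).1).2
  have hΨ1 : ∀ w ∈ W₁, Ψ₁ w = Ψ w := by
    intro w hw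
    have h1 : D.τ (u w) < 5 / 2 := hw.2
    show _ = if D.τ (u w) < 5 / 2 then Ψ₁ w else u w
    rw [if_pos h1]
  have hΨ2 : ∀ w ∈ W₂, u w = Ψ w := by
    intro w hw
    show _ = if D.τ (u w) < 5 / 2 then Ψ₁ w else u w
    have h1 : 9 / 4 < D.τ (u w) := hw.2
    split_ifs with h
    · exact (hΨ₁u w hw.1 h1 (by linarith)).symm
    · rfl
  have hlow : ∀ w ∈ W, D.τ (u w) ≤ 9 / 4 → D.τ (Ψ₁ w) < 5 / 2 := by
    intro w hw h1
    have h0 : D.τ (u w) < 11 / 4 := by linarith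
    have h2 := hCgi w hw h0
    have h3 := (D.le _).trans (hc _ h2.1 h2.2)
    rw [map_sub, hCs, D.τ_vert] at h3
    have h4 := abs_le.1 (hτgi w hw h0)
    have h5 := hτlow w hw
    have h6 := (cmap_symm_bounds (s := D.τ (gi (u w))) (by linarith) (by linarith)).2.2
    have h7 : max (D.τ (gi (u w))) 2 ≤ 9 / 4 + δ := max_le (by linarith) (by linarith)
    have h8 := abs_le.1 h3
    have h9 : D.τ (Ψ₁ w) - cmap.symm (D.τ (gi (u w))) ≤ δ := h8.2
    linarith
  have hinj : InjOn Ψ W := by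
    have hmix : ∀ x ∈ W, ∀ y ∈ W, D.τ (u x) < 5 / 2 → ¬ D.τ (u y) < 5 / 2 → Ψ x = Ψ y →
        x = y := by
      intro x hx y hy h1 h2 h3
      have h4 : Ψ y = u y := by
        show (if D.τ (u y) < 5 / 2 then Ψ₁ y else u y) = _
        rw [if_neg h2]
      by_cases h5 : 9 / 4 < D.τ (u x)
      · have h6 := hΨ2 x ⟨hx, h5⟩
        rw [← h6, h4] at h3
        exact hOEu.inj hx hy h3
      · have h6 := hlow x hx (not_lt.1 h5)
        rw [hΨ1 x ⟨hx, h1⟩, h3, h4] at h6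
        exact absurd h6 h2
    intro x hx y hy hxy
    by_cases h1 : D.τ (u x) < 5 / 2
    · by_cases h2 : D.τ (u y) < 5 / 2
      · rw [← hΨ1 x ⟨hx, h1⟩, ← hΨ1 y ⟨hy, h2⟩] at hxy
        exact hOE1.inj ⟨hx, h1⟩ ⟨hy, h2⟩ hxy
      · exact hmix x hx y hy h1 h2 hxy
    · by_cases h2 : D.τ (u y) < 5 / 2
      · exact (hmix y hy x hx h2 h1 hxy.symm).symm
      · rw [← hΨ2 x ⟨hx, lt_of_lt_of_le (by norm_num) (not_lt.1 h1)⟩,
          ← hΨ2 y ⟨hy, lt_of_lt_of_le (by norm_num) (not_lt.1 h2)⟩] at hxy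
        exact hOEu.inj hx hy hxy
  have hOE : OE Ψ W := by
    refine oe_local hinj ?_
    intro w hw
    by_cases h1 : D.τ (u w) < 5 / 2
    · exact ⟨W₁, ⟨hw, h1⟩, inter_subset_left, hOE1.congr hΨ1⟩
    · exact ⟨W₂, ⟨hw, lt_of_lt_of_le (by norm_num) (not_lt.1 h1)⟩, inter_subset_left,
        (hOEu.mono hW₂o inter_subset_left).congr hΨ2⟩
  refine ⟨Ψ, hOE, ?_, ?_, ?_, ?_, ?_⟩
  · intro w hw1 hw2 hw3
    have hw : w ∈ W := ⟨hw1, hw2, hw3⟩
    by_cases h1 : D.τ (u w) < 5 / 2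
    · have h0 : D.τ (u w) < 11 / 4 := by linarith
      rw [← hΨ1 w ⟨hw, h1⟩]
      have h2 := hCgi w hw h0
      have h3 := hc _ h2.1 h2.2
      have h4 := D.vert_lip cmap.symm (L := 4) (by norm_num) cmap_symm_lip (gi (u w)) (C w)
      have h5 : D.vert cmap.symm (C w) = w := C.symm_apply_apply w
      rw [h5] at h4
      have h6 : ‖gi (u w) - C w‖ ≤ δ + 9 * δ := by
        have : gi (u w) - C w = (gi (u w) - u w) + (u w - C w) := by abel
        rw [this]
        exact (norm_add_le _ _).trans (add_le_add (hgu w hw h0).2 (huC w hw))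
      have h7 : Ψ₁ w - w = (g (C.symm (gi (u w))) - C.symm (gi (u w))) +
          (D.vert cmap.symm (gi (u w)) - w) := by
        show g (C.symm (gi (u w))) - w = _
        rw [hCs]
        abel
      rw [h7]
      refine (norm_add_le _ _).trans ?_
      linarith
    · rw [← hΨ2 w ⟨hw, lt_of_lt_of_le (by norm_num) (not_lt.1 h1)⟩]
      have h2 := abs_le.1 (hτu w hw)
      have h3 : cmap (D.τ w) = D.τ w := cmap_fix' (by linarith [not_lt.1 h1])
      have h4 : C w = w := D.vert_fix _ h3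
      have h5 := huC w hw
      rw [h4] at h5
      linarith
  · intro w hw1 hw2 hw3
    have hw : w ∈ W := ⟨hw1, hw2, by linarith⟩
    have h1 := cmap_le hw3
    have h1' := cmap_bounds hw2 (by linarith)
    have h2 : R (C w) = C w := by
      apply D.vert_fix
      rw [hC, D.τ_vert]
      exact rmap_fix (by linarith)
    have h3 := hRC w hw
    rw [h2] at h3
    have h4 := hc _ h3.1 h3.2
    have h5 := abs_le.1 ((D.le _).trans h4)
    rw [map_sub, hC, D.τ_vert] at h5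
    have h6 : u w = g (C w) := by
      show R.symm (g (R (C w))) = _
      rw [h2, hRs]
      apply D.vert_fix
      exact rmap_symm_fix (by rw [hC]; linarith [h5.2])
    have h7 : D.τ (u w) < 5 / 2 := by
      rw [h6, hC]
      linarith [h5.2]
    rw [← hΨ1 w ⟨hw, h7⟩]
    show g (C.symm (gi (u w))) = g w
    rw [h6, hgi1 _ h3, Homeomorph.symm_apply_apply]
  · intro w hw1 hw2 hw3
    have hw : w ∈ W := ⟨hw1, by linarith, hw3⟩
    have h1 : C w = w := D.vert_fix _ (cmap_fix (by linarith))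
    have h2 : R (C w) = w + (-4 : ℝ) • D.e := by
      rw [h1, hR, D.vert_apply, rmap_shift (by linarith)]
      congr 2
      ring
    have h3 := hRC w hw
    rw [h2] at h3
    have h4 := abs_le.1 ((D.le _).trans (hc _ h3.1 h3.2))
    rw [map_sub, D.τ_add] at h4
    have h5 : u w = g (w + (-4 : ℝ) • D.e) + (4 : ℝ) • D.e := by
      show R.symm (g (R (C w))) = _
      rw [h2, hRs, D.vert_apply, rmap_symm_shift (by linarith)]
      congr 2
      ring
    have h6 : 9 / 4 < D.τ (u w) := by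
      rw [h5, D.τ_add]
      linarith
    rw [← hΨ2 w ⟨hw, h6⟩, h5]
  · intro w hw1 hw2 hw3 hid
    have hw : w ∈ W := ⟨hw1, hw2, hw3⟩
    have hlift : ∀ y : X, (∃ s : ℝ, y = w + s • D.e) → |D.τ y| < 7 / 2 → g y = y := by
      rintro y ⟨s, rfl⟩ hy
      rw [D.τ_add] at hy
      exact hid s hy
    have e1 : ∃ s : ℝ, R (C w) = w + s • D.e := by
      refine ⟨(cmap (D.τ w) - D.τ w) + (rmap (D.τ (C w)) - D.τ (C w)), ?_⟩
      rw [hR, hC, D.vert_apply rmap, D.vert_apply cmap, add_smul, add_assoc]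
    have h1 : u w = C w := by
      show R.symm (g (R (C w))) = _
      rw [hlift _ e1 (hRC w hw).2, Homeomorph.symm_apply_apply]
    by_cases h2 : D.τ (u w) < 5 / 2
    · rw [← hΨ1 w ⟨hw, h2⟩]
      show g (C.symm (gi (u w))) = w
      rw [h1]
      have h3 : D.τ w < 5 / 2 := by
        rw [h1, hC, D.τ_vert] at h2
        exact cmap_lt h2
      have hτC : |D.τ (C w)| < 7 / 2 := by
        have h5 := cmap_bounds hw2 hw3
        rw [hC, D.τ_vert, abs_lt]
        constructor <;> linarith [h5.1, h5.2.2.2]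
      have h4 : g (C w) = C w := hlift _ ⟨_, rfl⟩ hτC
      have h5 : C w ∈ S := ⟨hv _ (core_sub hδ0.le hw1) _, hτC⟩
      have h6 : gi (C w) = C w := by
        have := hgi1 _ h5
        rwa [h4] at this
      rw [h6, Homeomorph.symm_apply_apply]
      apply hlift _ ⟨0, by simp⟩
      rw [abs_lt]
      constructor <;> linarith
    · rw [← hΨ2 w ⟨hw, lt_of_lt_of_le (by norm_num) (not_lt.1 h2)⟩, h1]
      rw [h1, hC, D.τ_vert] at h2
      exact D.vert_fix _ (cmap_fix' (by linarith [not_lt.1 h2]))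
  · intro w hw1 hw2 hw3
    have hw : w ∈ W := ⟨hw1, hw2, hw3⟩
    have hσv : ∀ (φ : ℝ ≃ₜ ℝ) (w : X), σ (D.vert φ w) = σ w := by
      intro φ w
      rw [D.vert_apply]
      exact hσ _ _
    have hσu : σ (u w) = σ w := by
      show σ (D.vert rmap.symm (g (R (C w)))) = σ w
      rw [hσv, hgσ _ (hRC w hw).1 (hRC w hw).2, hR, hC, hσv, hσv]
    by_cases h1 : D.τ (u w) < 5 / 2
    · have h0 : D.τ (u w) < 11 / 4 := by linarith
      rw [← hΨ1 w ⟨hw, h1⟩]
      have h2 := hCgi w hw h0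
      show σ (g (C.symm (gi (u w)))) = σ w
      rw [hgσ _ h2.1 h2.2, hCs, hσv]
      have h3 := hgi2 _ (hgu w hw h0).1
      rw [← hgσ _ h3.1.1 h3.1.2, h3.2]
      exact hσu
    · rw [← hΨ2 w ⟨hw, lt_of_lt_of_le (by norm_num) (not_lt.1 h1)⟩]
      exact hσu


/-- Extension of a near identity embedding of a slab in the direction transversal to it, for maps
which preserve a function `σ`. -/
theorem stepS [ProperSpace X] (D : Dir X) {O : Set X}
    (hv : ∀ w ∈ O, ∀ s : ℝ, w + s • D.e ∈ O) {g : X → X} {δ : ℝ} (hδ0 : 0 < δ)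
    (hδ : δ ≤ 1 / 1000) (hg : OE g (O ∩ {w | |D.τ w| < 7 / 2}))
    (hc : ∀ w ∈ O, |D.τ w| < 7 / 2 → ‖g w - w‖ ≤ δ)
    {Sg : Type*} (σ : X → Sg) (hσ : ∀ (w : X) (s : ℝ), σ (w + s • D.e) = σ w)
    (hgσ : ∀ w ∈ O, |D.τ w| < 7 / 2 → σ (g w) = σ w) :
    ∃ G : X → X, OE G (core O δ) ∧
      (∀ w ∈ core O δ, ‖G w - w‖ ≤ 41 * δ) ∧
      (∀ w ∈ core O δ, |D.τ w| < 9 / 10 → G w = g w) ∧
      (∀ w ∈ core O δ,
        (∀ s : ℝ, |D.τ w + s| < 7 / 2 → g (w + s • D.e) = w + s • D.e) → G w = w) ∧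
      (∀ w ∈ core O δ, σ (G w) = σ w) := by
  obtain ⟨Ψ, hΨ, hΨc, hΨ1, hΨ2, hΨi, hΨσ⟩ := windowS D hv hδ0 hδ hg hc σ hσ hgσ
  set W : Set X := core O δ ∩ {w | -(9 / 10) < D.τ w ∧ D.τ w < 49 / 10} with hW
  set k : X → ℤ := fun w => ⌊(D.τ w + 1 / 2) / 4⌋ with hk
  set sh : ℤ → X → X := fun j w => w + (-(4 * (j : ℝ))) • D.e with hsh
  set T : ℤ → X → X := fun j w => Ψ (sh j w) + (4 * (j : ℝ)) • D.e with hT
  have hk1 : ∀ w, -(1 / 2) ≤ D.τ w - 4 * (k w : ℝ) ∧ D.τ w - 4 * (k w : ℝ) < 7 / 2 := by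
    intro w
    have h1 := Int.floor_le ((D.τ w + 1 / 2) / 4)
    have h2 := Int.lt_floor_add_one ((D.τ w + 1 / 2) / 4)
    constructor
    · show -(1 / 2) ≤ D.τ w - 4 * ((⌊(D.τ w + 1 / 2) / 4⌋ : ℤ) : ℝ)
      linarith
    · show D.τ w - 4 * ((⌊(D.τ w + 1 / 2) / 4⌋ : ℤ) : ℝ) < 7 / 2
      linarith
  have hτsh : ∀ (j : ℤ) (w : X), D.τ (sh j w) = D.τ w - 4 * (j : ℝ) := by
    intro j w
    rw [hsh]
    simp only
    rw [D.τ_add]
    ring
  have hcsh : ∀ j : ℤ, ∀ w ∈ core O δ, sh j w ∈ core O δ := fun j w hw => core_vert hv hw _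
  have hshW : ∀ j : ℤ, ∀ w ∈ core O δ, -(9 / 10) < D.τ w - 4 * (j : ℝ) →
      D.τ w - 4 * (j : ℝ) < 49 / 10 → sh j w ∈ W := by
    intro j w hw h1 h2
    refine ⟨hcsh j w hw, ?_, ?_⟩
    · rw [hτsh]
      exact h1
    · rw [hτsh]
      exact h2
  have hshift : ∀ (j : ℤ) (w : X), sh (j + 1) w = sh j w + (-4 : ℝ) • D.e := by
    intro j w
    rw [hsh]
    simp only
    rw [add_assoc, ← add_smul]
    congr 2
    push_cast
    ring
  -- neighbouring windows agree
  have hagree : ∀ j : ℤ, ∀ w ∈ core O δ, 31 / 10 < D.τ w - 4 * (j : ℝ) →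
      D.τ w - 4 * (j : ℝ) < 49 / 10 → T j w = T (j + 1) w := by
    intro j w hw h1 h2
    have e1 : Ψ (sh j w) = g (sh j w + (-4 : ℝ) • D.e) + (4 : ℝ) • D.e :=
      hΨ2 _ (hcsh j w hw) (by rw [hτsh]; exact h1) (by rw [hτsh]; exact h2)
    have e2 : Ψ (sh (j + 1) w) = g (sh (j + 1) w) := by
      refine hΨ1 _ (hcsh _ w hw) ?_ ?_ <;>
      · rw [hτsh]
        push_cast
        linarith
    show Ψ (sh j w) + (4 * (j : ℝ)) • D.e = Ψ (sh (j + 1) w) + (4 * ((j + 1 : ℤ) : ℝ)) • D.e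
    rw [e1, e2, hshift, add_assoc, ← add_smul]
    congr 2
    push_cast
    ring
  have key : ∀ j : ℤ, ∀ w ∈ core O δ, -(9 / 10) < D.τ w - 4 * (j : ℝ) →
      D.τ w - 4 * (j : ℝ) < 49 / 10 → T (k w) w = T j w := by
    intro j w hw h1 h2
    have h3 := hk1 w
    have h4 : k w - j ≤ 1 := by
      by_contra hn
      have h5 : (2 : ℤ) ≤ k w - j := by omega
      have h6 : (2 : ℝ) ≤ (k w : ℝ) - (j : ℝ) := by exact_mod_cast h5
      linarith
    have h5 : -1 ≤ k w - j := by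
      by_contra hn
      have h5 : k w - j ≤ (-2 : ℤ) := by omega
      have h6 : (k w : ℝ) - (j : ℝ) ≤ -2 := by exact_mod_cast h5
      linarith
    rcases (by omega : k w = j ∨ k w = j + 1 ∨ j = k w + 1) with h | h | h
    · rw [h]
    · have h6 : (k w : ℝ) = (j : ℝ) + 1 := by exact_mod_cast h
      rw [h]
      refine (hagree j w hw ?_ h2).symm
      linarith
    · have h6 : (j : ℝ) = (k w : ℝ) + 1 := by exact_mod_cast h
      rw [h]
      refine hagree (k w) w hw ?_ ?_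
      · linarith
      · linarith
  set G : X → X := fun w => T (k w) w with hG
  have hGT : ∀ j : ℤ, ∀ w ∈ core O δ, -(9 / 10) < D.τ w - 4 * (j : ℝ) →
      D.τ w - 4 * (j : ℝ) < 49 / 10 → G w = T j w := key
  have hclose : ∀ w ∈ core O δ, ‖G w - w‖ ≤ 41 * δ := by
    intro w hw
    have h1 := hk1 w
    have h2 := hΨc (sh (k w) w) (hcsh _ w hw) (by rw [hτsh]; linarith) (by rw [hτsh]; linarith)
    have h3 : G w - w = Ψ (sh (k w) w) - sh (k w) w := by
      show Ψ (sh (k w) w) + (4 * (k w : ℝ)) • D.e - w =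
        Ψ (sh (k w) w) - (w + (-(4 * (k w : ℝ))) • D.e)
      rw [neg_smul]
      abel
    rw [h3]
    exact h2
  have hopenV : ∀ j : ℤ, IsOpen (core O δ ∩ {w | -(9 / 10) < D.τ w - 4 * (j : ℝ) ∧
      D.τ w - 4 * (j : ℝ) < 49 / 10}) := by
    intro j
    have h1 : Continuous fun w => D.τ w - 4 * (j : ℝ) := D.τ.continuous.sub continuous_const
    exact (core_open O δ).inter ((isOpen_lt continuous_const h1).inter
      (isOpen_lt h1 continuous_const))
  have hOET : ∀ j : ℤ, OE (T j) (core O δ ∩ {w | -(9 / 10) < D.τ w - 4 * (j : ℝ) ∧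
      D.τ w - 4 * (j : ℝ) < 49 / 10}) := by
    intro j
    have h1 : OE (sh j) (core O δ ∩ {w | -(9 / 10) < D.τ w - 4 * (j : ℝ) ∧
      D.τ w - 4 * (j : ℝ) < 49 / 10}) := oe_homeo (Homeomorph.addRight _) (hopenV j)
    have h2 : OE (Ψ ∘ sh j) (core O δ ∩ {w | -(9 / 10) < D.τ w - 4 * (j : ℝ) ∧
      D.τ w - 4 * (j : ℝ) < 49 / 10}) :=
      hΨ.comp h1 fun w hw => hshW j w hw.1 hw.2.1 hw.2.2
    have h3 : OE (fun y : X => y + (4 * (j : ℝ)) • D.e) univ :=
      oe_homeo (Homeomorph.addRight ((4 * (j : ℝ)) • D.e)) isOpen_univ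
    exact h3.comp h2 fun x _ => mem_univ _
  have hinj : InjOn G (core O δ) := by
    intro x hx y hy hxy
    have h1 : ‖x - y‖ ≤ 82 * δ := by
      have e : x - y = (G y - y) - (G x - x) := by
        rw [hxy]
        abel
      rw [e]
      refine (norm_sub_le _ _).trans ?_
      linarith [hclose x hx, hclose y hy]
    have h2 := abs_le.1 ((D.le _).trans h1)
    rw [map_sub] at h2
    have h3 := hk1 x
    have h4 : -(9 / 10) < D.τ y - 4 * (k x : ℝ) := by linarith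
    have h5 : D.τ y - 4 * (k x : ℝ) < 49 / 10 := by linarith
    have h6 : -(9 / 10) < D.τ x - 4 * (k x : ℝ) := by linarith
    have h7 : D.τ x - 4 * (k x : ℝ) < 49 / 10 := by linarith
    rw [hGT (k x) x hx h6 h7, hGT (k x) y hy h4 h5] at hxy
    exact (hOET (k x)).inj ⟨hx, h6, h7⟩ ⟨hy, h4, h5⟩ hxy
  refine ⟨G, ?_, hclose, ?_, ?_, ?_⟩
  · refine oe_local hinj ?_
    intro w hw
    have h3 := hk1 w
    exact ⟨core O δ ∩ {y | -(9 / 10) < D.τ y - 4 * (k w : ℝ) ∧
      D.τ y - 4 * (k w : ℝ) < 49 / 10}, ⟨hw, by linarith, by linarith⟩, inter_subset_left,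
      (hOET (k w)).congr fun y hy => (hGT (k w) y hy.1 hy.2.1 hy.2.2).symm⟩
  · intro w hw h1
    rw [abs_lt] at h1
    have e0 : sh 0 w = w := by
      rw [hsh]
      simp
    rw [hGT 0 w hw (by push_cast; linarith) (by push_cast; linarith)]
    show Ψ (sh 0 w) + (4 * ((0 : ℤ) : ℝ)) • D.e = g w
    rw [e0, hΨ1 w hw (by linarith) (by linarith)]
    simp
  · intro w hw hid
    have h1 := hk1 w
    have h2 : Ψ (sh (k w) w) = sh (k w) w := by
      refine hΨi _ (hcsh _ w hw) (by rw [hτsh]; linarith) (by rw [hτsh]; linarith) ?_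
      intro s hs
      have h3 := hid (s + (-(4 * (k w : ℝ)))) (by
        rw [hτsh] at hs
        convert hs using 2
        ring)
      have h4 : sh (k w) w + s • D.e = w + (s + (-(4 * (k w : ℝ)))) • D.e := by
        show w + (-(4 * (k w : ℝ))) • D.e + s • D.e = _
        rw [add_assoc, ← add_smul, add_comm s]
      rw [h4]
      exact h3
    show Ψ (sh (k w) w) + (4 * (k w : ℝ)) • D.e = w
    rw [h2]
    show w + (-(4 * (k w : ℝ))) • D.e + (4 * (k w : ℝ)) • D.e = w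
    rw [neg_smul, neg_add_cancel_right]
  · intro w hw
    have h1 := hk1 w
    have h2 := hΨσ (sh (k w) w) (hcsh _ w hw) (by rw [hτsh]; linarith) (by rw [hτsh]; linarith)
    show σ (Ψ (sh (k w) w) + (4 * (k w : ℝ)) • D.e) = σ w
    rw [hσ, h2]
    exact hσ _ _

end Pool.Agent.H655.BK
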